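import Pool.Agent.Helper50.CT.Goals

/-! Packet CT-CX: contraction in `X`. -/

set_option autoImplicit false

namespace Pool.Agent.Helper86.CT

open Pool.Agent.Helper50.CT

theorem goalCX (hPS : StmtPS) (hEX : StmtEX) : StmtCX := by
  intro κ hκ X _ hX o z w z' w' l hl hl1 hoz how h1 h2 h3 h4
  by_cases ha : dist o z = 0
  · have e1 : o = z := dist_eq_zero.1 ha
    have e2 : o = z' := by
      rw [← dist_eq_zero, h1, ha, mul_zero]
    rw [← e1, ← e2, h3]
    have h5 : 0 ≤ dist o w := dist_nonneg
    nlinarith [mul_nonneg hl.le h5]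
  by_cases hb : dist o w = 0
  · have e1 : o = w := dist_eq_zero.1 hb
    have e2 : o = w' := by
      rw [← dist_eq_zero, h3, hb, mul_zero]
    rw [← e1, ← e2, dist_comm z o, dist_comm z' o, h1]
    have h5 : 0 ≤ dist o z := dist_nonneg
    nlinarith [mul_nonneg hl.le h5]
  set a := dist o z with hadef
  set b := dist o w with hbdef
  have ha0 : 0 < a := lt_of_le_of_ne dist_nonneg (Ne.symm ha)
  have hb0 : 0 < b := lt_of_le_of_ne dist_nonneg (Ne.symm hb)
  have p1 := hPS κ hκ X hX w' o z z' (by rw [h1, h2, ← hadef]; ring)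
  have p2 := hPS κ hκ X hX z o w w' (by rw [h3, h4, ← hbdef]; ring)
  rw [h2, h1, dist_comm w' o, h3, ← hadef, dist_comm w' z'] at p1
  rw [h4, h3, dist_comm z o, ← hadef, ← hbdef] at p2
  have hsb : 0 < Real.sinh (κ * b) := Real.sinh_pos_iff.2 (mul_pos hκ hb0)
  have hsa : 0 ≤ Real.sinh (κ * (l * a)) :=
    Real.sinh_nonneg_iff.2 (mul_nonneg hκ.le (mul_nonneg hl.le ha0.le))
  refine hEX κ a b (dist z w) (dist z' w') l hκ ha0 hb0 hoz how hl hl1 ?_ ?_ dist_nonneg ?_ ?_
  · rw [abs_le]
    constructor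
    · have h5 : b ≤ a + dist z w := dist_triangle _ _ _
      linarith
    · have h5 : a ≤ b + dist w z := dist_triangle _ _ _
      rw [dist_comm w z] at h5
      linarith
  · have h5 : dist z w ≤ dist z o + dist o w := dist_triangle _ _ _
    rw [dist_comm z o] at h5
    exact h5
  · have h5 : dist z' w' ≤ dist z' o + dist o w' := dist_triangle _ _ _
    rw [dist_comm z' o, h1, h3] at h5
    linarith
  · have e1 : a - l * a = (1 - l) * a := by ring
    have e2 : b - l * b = (1 - l) * b := by ring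
    rw [e1, e2]
    have q1 := mul_le_mul_of_nonneg_left p1 hsb.le
    have q2 := mul_le_mul_of_nonneg_left p2 hsa
    rw [dist_comm z w'] at q2
    calc _ = Real.sinh (κ * b) * (Real.sinh (κ * ((1 - l) * a)) * Real.cosh (κ * (l * b)))
          + Real.sinh (κ * (l * a)) * (Real.sinh (κ * ((1 - l) * b)) * Real.cosh (κ * a)
            + Real.sinh (κ * (l * b)) * Real.cosh (κ * dist z w)) := by ring
      _ ≤ Real.sinh (κ * b) * (Real.sinh (κ * ((1 - l) * a)) * Real.cosh (κ * (l * b)))
          + Real.sinh (κ * (l * a)) * (Real.sinh (κ * b) * Real.cosh (κ * dist w' z)) := by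
          linarith
      _ = Real.sinh (κ * b) * (Real.sinh (κ * ((1 - l) * a)) * Real.cosh (κ * (l * b))
          + Real.sinh (κ * (l * a)) * Real.cosh (κ * dist w' z)) := by ring
      _ ≤ Real.sinh (κ * b) * (Real.sinh (κ * a) * Real.cosh (κ * dist z' w')) := q1
      _ = _ := by ring

end Pool.Agent.Helper86.CT
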