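import Pool.Agent.Helper50.CT.Goals

/-! Packet CT-PS: point-on-side comparison. -/

set_option autoImplicit false

namespace Pool.Agent.Helper86.CT

open Pool.Agent.Helper50.CT

/-- the argument of the comparison angle is in `[-1, 1]` -/
theorem arg_mem {a h c : ℝ} (ha : 0 < a) (hh : 0 < h) (h1 : |h - a| ≤ c) (h2 : c ≤ h + a) :
    -1 ≤ (Real.cosh h * Real.cosh a - Real.cosh c) / (Real.sinh h * Real.sinh a) ∧
      (Real.cosh h * Real.cosh a - Real.cosh c) / (Real.sinh h * Real.sinh a) ≤ 1 := by
  have hs : 0 < Real.sinh h * Real.sinh a :=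
    mul_pos (Real.sinh_pos_iff.2 hh) (Real.sinh_pos_iff.2 ha)
  have hc : 0 ≤ c := (abs_nonneg _).trans h1
  constructor
  · rw [le_div_iff₀ hs]
    have h3 : Real.cosh c ≤ Real.cosh (h + a) := by
      rw [Real.cosh_le_cosh, abs_of_nonneg hc, abs_of_nonneg (by linarith)]
      exact h2
    rw [Real.cosh_add] at h3
    linarith
  · rw [div_le_iff₀ hs]
    have h3 : Real.cosh (h - a) ≤ Real.cosh c := by
      rw [Real.cosh_le_cosh, abs_of_nonneg hc]
      exact h1
    rw [Real.cosh_sub] at h3
    linarith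

theorem add_nonneg_of_arccos {A B : ℝ} (hA : -1 ≤ A ∧ A ≤ 1) (hB : -1 ≤ B ∧ B ≤ 1)
    (h : Real.arccos A + Real.arccos B ≤ Real.pi) : 0 ≤ A + B := by
  have h1 : Real.arccos A ≤ Real.pi - Real.arccos B := by linarith
  have h2 : Real.cos (Real.pi - Real.arccos B) ≤ Real.cos (Real.arccos A) :=
    Real.cos_le_cos_of_nonneg_of_le_pi (Real.arccos_nonneg _)
      (by linarith [Real.arccos_nonneg B]) h1
  rw [Real.cos_pi_sub, Real.cos_arccos hA.1 hA.2, Real.cos_arccos hB.1 hB.2] at h2
  linarith

theorem goalPS : StmtPS := by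
  intro κ hκ X _ hX v x y z hxy
  by_cases hzx : x = z
  · subst hzx
    simp
  by_cases hzy : y = z
  · subst hzy
    simp
  by_cases hvz : v = z
  · subst hvz
    rw [← hxy, mul_add, Real.sinh_add, dist_self, mul_zero, Real.cosh_zero, dist_comm v x,
      dist_comm v y, mul_one]
    apply le_of_eq
    ring
  set a := κ * dist z x with ha
  set b := κ * dist z y with hb
  set h := κ * dist z v with hh
  have ha0 : 0 < a := mul_pos hκ (dist_pos.2 (Ne.symm hzx))
  have hb0 : 0 < b := mul_pos hκ (dist_pos.2 (Ne.symm hzy))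
  have hh0 : 0 < h := mul_pos hκ (dist_pos.2 (Ne.symm hvz))
  have hab : κ * dist x y = a + b := by
    rw [← hxy, ha, hb, dist_comm x z]
    ring
  have h4 := hX z x y v hzx hzy hvz
  have hsa : 0 < Real.sinh a := Real.sinh_pos_iff.2 ha0
  have hsb : 0 < Real.sinh b := Real.sinh_pos_iff.2 hb0
  have hsh : 0 < Real.sinh h := Real.sinh_pos_iff.2 hh0
  unfold ang at h4
  rw [← ha, ← hb, ← hh, hab] at h4
  have e1 : (Real.cosh a * Real.cosh b - Real.cosh (a + b)) / (Real.sinh a * Real.sinh b) = -1 := by
    rw [Real.cosh_add]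
    field_simp
    ring
  rw [e1, Real.arccos_neg_one] at h4
  -- ranges
  have r1 : |h - a| ≤ κ * dist v x := by
    rw [abs_le]
    constructor
    · have h5 : dist z x ≤ dist z v + dist v x := dist_triangle _ _ _
      have h6 := mul_le_mul_of_nonneg_left h5 hκ.le
      rw [mul_add] at h6
      linarith
    · have h5 : dist z v ≤ dist z x + dist x v := dist_triangle _ _ _
      have h6 := mul_le_mul_of_nonneg_left h5 hκ.le
      rw [mul_add, dist_comm x v] at h6
      linarith
  have r2 : κ * dist v x ≤ h + a := by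
    have h5 : dist v x ≤ dist v z + dist z x := dist_triangle _ _ _
    have h6 := mul_le_mul_of_nonneg_left h5 hκ.le
    rw [mul_add, dist_comm v z] at h6
    linarith
  have r3 : |b - h| ≤ κ * dist y v := by
    rw [abs_le]
    constructor
    · have h5 : dist z v ≤ dist z y + dist y v := dist_triangle _ _ _
      have h6 := mul_le_mul_of_nonneg_left h5 hκ.le
      rw [mul_add] at h6
      linarith
    · have h5 : dist z y ≤ dist z v + dist v y := dist_triangle _ _ _
      have h6 := mul_le_mul_of_nonneg_left h5 hκ.le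
      rw [mul_add, dist_comm v y] at h6
      linarith
  have r4 : κ * dist y v ≤ b + h := by
    have h5 : dist y v ≤ dist y z + dist z v := dist_triangle _ _ _
    have h6 := mul_le_mul_of_nonneg_left h5 hκ.le
    rw [mul_add, dist_comm y z] at h6
    linarith
  have m1 := arg_mem ha0 hh0 r1 r2
  have m2 := arg_mem hh0 hb0 r3 r4
  have h7 := add_nonneg_of_arccos m2 m1 (by linarith)
  have h8 : 0 ≤ ((Real.cosh b * Real.cosh h - Real.cosh (κ * dist y v)) /
      (Real.sinh b * Real.sinh h) + (Real.cosh h * Real.cosh a - Real.cosh (κ * dist v x)) /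
      (Real.sinh h * Real.sinh a)) * (Real.sinh a * Real.sinh b * Real.sinh h) :=
    mul_nonneg h7 (by positivity)
  have h9 : ((Real.cosh b * Real.cosh h - Real.cosh (κ * dist y v)) /
      (Real.sinh b * Real.sinh h) + (Real.cosh h * Real.cosh a - Real.cosh (κ * dist v x)) /
      (Real.sinh h * Real.sinh a)) * (Real.sinh a * Real.sinh b * Real.sinh h)
      = (Real.cosh b * Real.cosh h - Real.cosh (κ * dist y v)) * Real.sinh a
        + (Real.cosh h * Real.cosh a - Real.cosh (κ * dist v x)) * Real.sinh b := by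
    field_simp
  rw [h9] at h8
  rw [hab, Real.sinh_add, dist_comm v z, ← hh, dist_comm x z, ← ha, dist_comm v y]
  linarith

end Pool.Agent.Helper86.CT
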